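import Pool.Agent.H19.Cub.HInf

/-!
# The Kazhdan direction: the kernel of the matrix of the harmonic chains

`l2ker_of_harm` is the converse of `Pool.Agent.H19.Cub.harm_infS`: if there are no harmonic
`ℓ²`-chains on `Ω × W` then the `ℓ²`-kernel of the matrix `HSA` is trivial.
-/

set_option autoImplicit false
set_option linter.unusedSectionVars false

open Finset

namespace Pool.Agent.H71.KZ

open Pool.Agent.H4.Singer Pool.Agent.H4.Atiyah Pool.Agent.H19.Cub

variable {V : Type} [Fintype V] [DecidableEq V] {Ω : Type} [Fintype Ω]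

private lemma kz_coeff_toC {W : Type} [Group W] (a : MonoidAlgebra ℤ W) (h : W) :
    (MonoidAlgebra.mapRingHom W (Int.castRingHom ℂ) a).coeff h = ((a.coeff h : ℤ) : ℂ) := by
  simp [MonoidAlgebra.mapRingHom]

private lemma kz_sum_toC {W : Type} [Group W] (a : MonoidAlgebra ℤ W) (φ : W → ℂ) (g : W) :
    ∑ h ∈ (MonoidAlgebra.mapRingHom W (Int.castRingHom ℂ) a).coeff.support,
      φ (g * h⁻¹) * (MonoidAlgebra.mapRingHom W (Int.castRingHom ℂ) a).coeff h =
      gact (MonoidHom.id W) a φ g := by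
  unfold gact
  have hs : (MonoidAlgebra.mapRingHom W (Int.castRingHom ℂ) a).coeff.support =
      a.coeff.support := by
    ext h
    rw [Finsupp.mem_support_iff, Finsupp.mem_support_iff, kz_coeff_toC]
    simp
  rw [hs]
  refine Finset.sum_congr rfl fun h _ => ?_
  rw [kz_coeff_toC]
  rfl

theorem l2ker_of_harm (G : SimpleGraph V) (Y : Ω → Finset V) (s : V → Ω → Ω) (hs : IsSpec G Y s)
    (ν : V → ℕ) (i : ℕ)
    (h0 : ∀ f : Finset V → Ω × RGrp G → ℂ,
      IsHarmS G (prY Y (RGrp G)) (prS s (gen G)) ν i f → f = 0) :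
    ∀ x ∈ l2ker (toC (HSA G Y s ν i)), x = 0 := by
  classical
  intro X hX
  have hgi : ∀ v, (gen G v)⁻¹ = gen G v := fun v =>
    inv_eq_of_mul_eq_one_left ((racg G).toCoxeterSystem.simple_mul_simple_self v)
  obtain ⟨x, hx⟩ : ∃ x : Ω → Finset V → RGrp G → ℂ, x = fun a σ w =>
    if h : σ ⊆ Y a ∧ G.IsClique (σ : Set V) ∧ σ.card = i then
      X (Fintype.equivFin (RS G Y i) ⟨(a, σ), h⟩, w) else 0 := ⟨_, rfl⟩
  have hx1 : ∀ (r : RS G Y i) w, x r.1.1 r.1.2 w = X (Fintype.equivFin (RS G Y i) r, w) := by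
    intro r w
    rw [hx]
    show (if h : _ then _ else _) = _
    rw [dif_pos r.2]
  have hsupp : ∀ (a : Ω) (σ : Finset V),
      ¬ (σ ⊆ Y a ∧ G.IsClique (σ : Set V) ∧ σ.card = i) → x a σ = 0 := by
    intro a σ hσ
    funext w
    rw [hx]
    show (if h : _ then _ else _) = _
    rw [dif_neg hσ]
    rfl
  have hl2 : ∀ a σ, Summable fun w => ‖x a σ w‖ ^ 2 := by
    intro a σ
    by_cases hσ : σ ⊆ Y a ∧ G.IsClique (σ : Set V) ∧ σ.card = i
    · have h1 := (lp.memℓp X).summable (by norm_num)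
      have h2 := h1.comp_injective (i := fun w : RGrp G =>
        (Fintype.equivFin (RS G Y i) ⟨(a, σ), hσ⟩, w)) (fun w w' h => (Prod.ext_iff.1 h).2)
      refine h2.congr fun w => ?_
      rw [hx1 ⟨(a, σ), hσ⟩ w]
      norm_num
    · rw [hsupp a σ hσ]
      simp
  have hcol : ∀ (c : CS G Y i) (g : RGrp G), ∑ r : RS G Y i, gact (MonoidHom.id (RGrp G))
      (HS G Y s ν i r c) (x r.1.1 r.1.2) g = 0 := by
    intro c g
    have h1 := hX (Fintype.equivFin (CS G Y i) c) g
    rw [← h1, ← Equiv.sum_comp (Fintype.equivFin (RS G Y i))]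
    refine Finset.sum_congr rfl fun r _ => ?_
    rw [← kz_sum_toC]
    have h2 : (toC (HSA G Y s ν i)) (Fintype.equivFin (RS G Y i) r)
        (Fintype.equivFin (CS G Y i) c) =
        MonoidAlgebra.mapRingHom (RGrp G) (Int.castRingHom ℂ) (HS G Y s ν i r c) := by
      simp only [toC, HSA, Matrix.map_apply, Matrix.submatrix_apply, Equiv.symm_apply_apply]
    rw [h2]
    refine Finset.sum_congr rfl fun h _ => ?_
    rw [hx1]
  have hharm : IsHarmS G (prY Y (RGrp G)) (prS s (gen G)) ν i (fun σ p => x p.1 σ p.2) := by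
    refine ⟨⟨?_, ?_, ?_⟩, ?_, ?_⟩
    · rintro σ ⟨a, w⟩ hne
      by_contra hcon
      apply hne
      show x a σ w = 0
      rw [hsupp a σ hcon]
      rfl
    · rintro σ v hv ⟨a, w⟩
      show x (s v a) σ (w * gen G v) = - x a σ w
      by_cases hσ : σ ⊆ Y a ∧ G.IsClique (σ : Set V) ∧ σ.card = i
      · have h1 := hcol (Sum.inl (⟨(a, σ), hσ⟩, v)) w
        rw [HS_anti G Y s hs ν i (MonoidHom.id (RGrp G)) x hsupp ⟨(a, σ), hσ⟩ v hv w,
          MonoidHom.id_apply, hgi] at h1
        exact eq_neg_of_add_eq_zero_right h1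
      · have hσ' : ¬ (σ ⊆ Y (s v a) ∧ G.IsClique (σ : Set V) ∧ σ.card = i) := by
          rintro ⟨h1, h2, h3⟩
          have hCl : Pool.Agent.H85.Fold.Cl G σ := fun b hb c hc hbc => h2 hb hc hbc
          exact hσ ⟨(hs.sub_iff hCl hv).1 h1, h2, h3⟩
        rw [hsupp _ σ hσ, hsupp _ σ hσ']
        simp
    · intro σ
      rw [← (Equiv.refl (Ω × RGrp G)).summable_iff]
      show Summable fun p : Ω × RGrp G => ‖x p.1 σ p.2‖ ^ 2
      rw [summable_prod_of_nonneg (fun p => by positivity)]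
      exact ⟨fun a => hl2 a σ, Summable.of_finite⟩
    · funext τ p
      obtain ⟨a, w⟩ := p
      have h1 := hcol (Sum.inr (Sum.inl (a, τ))) w
      rw [HS_bd G Y s hs ν i (MonoidHom.id (RGrp G)) x hsupp] at h1
      rw [Pi.zero_apply, Pi.zero_apply, ← h1]
      rfl
    · rintro ρ ⟨a, w⟩ hρY hρ hρi
      have h1 := hcol (Sum.inr (Sum.inr (a, ρ))) w
      rw [HS_cobd G Y s hs ν i (MonoidHom.id (RGrp G)) x hsupp a ρ hρY hρ hρi] at h1
      rw [← h1]
      refine Finset.sum_congr rfl fun v _ => ?_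
      rw [MonoidHom.id_apply, hgi]
      rfl
  have hz := h0 _ hharm
  ext ⟨j, w⟩
  have h1 := congrFun (congrFun hz ((Fintype.equivFin (RS G Y i)).symm j).1.2)
    (((Fintype.equivFin (RS G Y i)).symm j).1.1, w)
  have h2 : x ((Fintype.equivFin (RS G Y i)).symm j).1.1
      ((Fintype.equivFin (RS G Y i)).symm j).1.2 w = 0 := h1
  rw [hx1, Equiv.apply_symm_apply] at h2
  rw [h2]
  rfl

/-- **Kazhdan's inequality** for a trivial kernel. -/
theorem vnDim_zero {G : Type} [Group G] [DecidableEq G] {k n : ℕ}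
    (A : Matrix (Fin k) (Fin n) (MonoidAlgebra ℂ G)) (h : ∀ x ∈ l2ker A, x = 0) :
    vnDim A = 0 := by
  have hset : l2ker A = {0} := by
    ext x
    constructor
    · intro hx
      exact h x hx
    · intro hx
      rw [Set.mem_singleton_iff] at hx
      rw [hx]
      intro i g
      simp
  unfold vnDim
  refine Finset.sum_eq_zero fun j _ => ?_
  rw [hset, Metric.infDist_singleton, dist_zero_right, lp.norm_single (by norm_num)]
  simp

end Pool.Agent.H71.KZ
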