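import Pool.Agent.H19.Cub.HFin

/-!
# The Kazhdan direction: harmonic chains on finite levels

`bT_le_rank` is the converse of `Pool.Agent.H19.Cub.harm_finS`: the Betti number of the finite level is
at most the dimension of the left kernel of the matrix `HSA` at this level (finite Hodge theory).
-/

set_option autoImplicit false
set_option linter.unusedSectionVars false

open Finset

namespace Pool.Agent.H71.KZ

open Pool.Agent.H4.Singer Pool.Agent.H4.Atiyah Pool.Agent.H85.Fold Pool.Agent.H85.Fold2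
open Pool.Agent.H19.Cub

variable {V : Type} [Fintype V] [DecidableEq V]

private theorem kz_tdl_app {Ω : Type} (ν : V → ℕ) (f : Finset V → Ω → Unit → ℂ) (τ : Finset V)
    (ω : Ω) (u : Unit) : tdl ℂ ν f τ ω u =
      ∑ v ∈ τᶜ, (sg ν v τ : ℂ) * f (insert v τ) ω u := by
  show (∑ v ∈ τᶜ, (sg ν v τ : ℂ) • f (insert v τ) ω) u = _
  rw [Finset.sum_apply]
  exact Finset.sum_congr rfl fun v _ => rfl

section Hodge

variable {X : Type} [Fintype X]

open Classical in
/-- the coboundary, restricted to cliques with `i + 1` elements -/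
private noncomputable def kzC (G : SimpleGraph V) (Y : X → Finset V) (s : V → X → X) (ν : V → ℕ)
    (i : ℕ) (x : Finset V → X → ℂ) : Finset V → X → ℂ := fun ρ w =>
  if ρ ⊆ Y w ∧ G.IsClique (ρ : Set V) ∧ ρ.card = i + 1 then
    ∑ v ∈ ρ, (-1 : ℂ) ^ ((ρ.erase v).filter fun u => ν u < ν v).card *
      (x (ρ.erase v) w - x (ρ.erase v) (s v w)) else 0

private theorem kzC_anti (G : SimpleGraph V) (Y : X → Finset V) (s : V → X → X)
    (hs : IsSpec G Y s) (ν : V → ℕ) (i : ℕ) {x : Finset V → X → ℂ}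
    (hx : ∀ σ, ∀ v ∈ σ, ∀ w, x σ (s v w) = - x σ w) (ρ : Finset V) (u : V) (hu : u ∈ ρ) (w : X) :
    kzC G Y s ν i x ρ (s u w) = - kzC G Y s ν i x ρ w := by
  unfold kzC
  by_cases hρ : ρ ⊆ Y w ∧ G.IsClique (ρ : Set V) ∧ ρ.card = i + 1
  · have hCl : Cl G ρ := fun a ha b hb hab => hρ.2.1 ha hb hab
    have hρ' : ρ ⊆ Y (s u w) ∧ G.IsClique (ρ : Set V) ∧ ρ.card = i + 1 :=
      ⟨hs.sub hCl hu hρ.1, hρ.2⟩
    rw [if_pos hρ, if_pos hρ', ← Finset.sum_neg_distrib]
    refine Finset.sum_congr rfl fun v hv => ?_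
    by_cases huv : v = u
    · subst huv
      rw [hs.inv]
      ring
    · have hadj : G.Adj u v := hρ.2.1 hu hv (Ne.symm huv)
      have hmem : u ∈ ρ.erase v := Finset.mem_erase.2 ⟨Ne.symm huv, hu⟩
      rw [hx _ u hmem, ← hs.comm u v hadj, hx _ u hmem]
      ring
  · have hρ' : ¬ (ρ ⊆ Y (s u w) ∧ G.IsClique (ρ : Set V) ∧ ρ.card = i + 1) := by
      rintro ⟨h1, h2, h3⟩
      have hCl : Cl G ρ := fun a ha b hb hab => h2 ha hb hab
      exact hρ ⟨(hs.sub_iff hCl hu).1 h1, h2, h3⟩
    rw [if_neg hρ, if_neg hρ', neg_zero]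

/-- **Finite Hodge theory.** -/
theorem exists_harm (G : SimpleGraph V) (Y : X → Finset V) (s : V → X → X) (hs : IsSpec G Y s)
    (ν : V → ℕ) (i : ℕ) : ∃ H : Submodule ℂ (Finset V → X → Unit → ℂ),
      (∀ f ∈ H, IsHarmS G Y s ν i (fun σ x => f σ x ())) ∧
      bT ℂ G Y s ν i ≤ Module.finrank ℂ H := by
  classical
  obtain ⟨Z, hZ⟩ : ∃ Z, Z = SZ ℂ G Y (fun _ => (1 : Matrix Unit Unit ℂ)) s ν i := ⟨_, rfl⟩
  obtain ⟨C1, hC1⟩ : ∃ C1, C1 = SCh ℂ G Y (fun _ => (1 : Matrix Unit Unit ℂ)) s (i + 1) := ⟨_, rfl⟩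
  let dl' : C1 →ₗ[ℂ] (Finset V → X → Unit → ℂ) := (tdl ℂ ν).domRestrict C1
  let dot : (Finset V → X → Unit → ℂ) →ₗ[ℂ] Module.Dual ℂ (Finset V → X → Unit → ℂ) :=
    LinearMap.mk₂ ℂ (fun f g => ∑ τ, ∑ x, f τ x () * g τ x ())
      (by
        intro f f' g
        simp only [Pi.add_apply, add_mul, sum_add_distrib])
      (by
        intro a f g
        simp only [Pi.smul_apply, smul_eq_mul, mul_assoc, mul_sum])
      (by
        intro f g g'
        simp only [Pi.add_apply, mul_add, sum_add_distrib])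
      (by
        intro a f g
        simp only [Pi.smul_apply, smul_eq_mul, mul_sum]
        refine sum_congr rfl fun τ _ => sum_congr rfl fun x _ => ?_
        ring)
  let T : (Finset V → X → Unit → ℂ) →ₗ[ℂ] Module.Dual ℂ C1 := dl'.dualMap.comp dot
  have hdot : ∀ f g, dot f g = ∑ τ, ∑ x, f τ x () * g τ x () := fun f g => rfl
  have hTf : ∀ f (y : C1), T f y = ∑ τ, ∑ x, f τ x () * (tdl ℂ ν (y : Finset V → X → Unit → ℂ)) τ x () :=
    fun f y => rfl
  have hrange : LinearMap.range dl' = SB ℂ G Y (fun _ => (1 : Matrix Unit Unit ℂ)) s ν i := by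
    show LinearMap.range ((tdl ℂ ν).domRestrict C1) = _
    rw [LinearMap.range_domRestrict, hC1]
    rfl
  have h1 : Module.finrank ℂ (LinearMap.range (T.domRestrict Z)) ≤
      Module.finrank ℂ (SB ℂ G Y (fun _ => (1 : Matrix Unit Unit ℂ)) s ν i) := by
    rw [← hrange, ← LinearMap.finrank_range_dualMap_eq_finrank_range (f := dl')]
    refine Submodule.finrank_mono ?_
    rintro _ ⟨z, rfl⟩
    exact ⟨dot z.1, rfl⟩
  have h2 : Module.finrank ℂ (LinearMap.range (T.domRestrict Z)) +
      Module.finrank ℂ (LinearMap.ker (T.domRestrict Z)) = Module.finrank ℂ Z :=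
    LinearMap.finrank_range_add_finrank_ker _
  refine ⟨(LinearMap.ker (T.domRestrict Z)).map Z.subtype, ?_, ?_⟩
  · rintro f ⟨z, hz, rfl⟩
    obtain ⟨f, hfZ⟩ := z
    have hf0 : ∀ y : C1, T f y = 0 := fun y => by
      have h3 : T f = 0 := hz
      rw [h3]
      rfl
    have hfZ' := hfZ
    rw [hZ] at hfZ'
    obtain ⟨⟨hf1, hf2⟩, hf3⟩ := hfZ'
    show IsHarmS G Y s ν i (fun σ x => f σ x ())
    have hanti : ∀ σ, ∀ v ∈ σ, ∀ w, f σ (s v w) () = - f σ w () := by
      intro σ v hv w
      rw [hf2 σ v hv w, Matrix.one_mulVec]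
      rfl
    obtain ⟨h, hh⟩ : ∃ h : Finset V → X → ℂ, h = fun σ x => (starRingEnd ℂ) (f σ x ()) := ⟨_, rfl⟩
    have hha : ∀ σ x, h σ x = (starRingEnd ℂ) (f σ x ()) := fun σ x => by rw [hh]
    have hhanti : ∀ σ, ∀ v ∈ σ, ∀ w, h σ (s v w) = - h σ w := by
      intro σ v hv w
      rw [hha, hha, hanti σ v hv w, map_neg]
    obtain ⟨c, hc⟩ : ∃ c, c = kzC G Y s ν i h := ⟨_, rfl⟩
    have hcanti : ∀ ρ, ∀ v ∈ ρ, ∀ w, c ρ (s v w) = - c ρ w := by
      intro ρ v hv w
      rw [hc]
      exact kzC_anti G Y s hs ν i hhanti ρ v hv w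
    have hcC : (fun ρ x (_ : Unit) => c ρ x) ∈ C1 := by
      rw [hC1]
      refine ⟨fun ρ x hne => ?_, fun ρ v hv x => ?_⟩
      · by_contra hcon
        apply hne
        funext u
        show c ρ x = 0
        rw [hc]
        unfold kzC
        rw [if_neg]
        rintro ⟨h3, h4, h5⟩
        exact hcon ⟨h3, fun a ha b hb hab => h4 ha hb hab, h5⟩
      · rw [Matrix.one_mulVec]
        funext u
        exact hcanti ρ v hv x
    have key := adj_identity s hs.inv ν h c (fun σ => (hasSum_fintype _).summable)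
      (fun σ => (hasSum_fintype _).summable) hcanti
    have e1 : ∑ τ : Finset V, ∑' w, (starRingEnd ℂ) (h τ w) *
        (∑ v ∈ τᶜ, (-1 : ℂ) ^ (τ.filter fun u => ν u < ν v).card * c (insert v τ) w) = 0 := by
      have h3 := hf0 ⟨_, hcC⟩
      rw [hTf] at h3
      rw [← h3]
      refine sum_congr rfl fun τ _ => ?_
      rw [tsum_fintype]
      refine sum_congr rfl fun w _ => ?_
      rw [hha, Complex.conj_conj, kz_tdl_app]
      congr 1
      refine sum_congr rfl fun v _ => ?_
      unfold sg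
      push_cast
      rfl
    rw [e1] at key
    have e2 : ∀ ρ w, (starRingEnd ℂ)
          (∑ v ∈ ρ, (-1 : ℂ) ^ ((ρ.erase v).filter fun u => ν u < ν v).card *
            (h (ρ.erase v) w - h (ρ.erase v) (s v w))) * c ρ w = ((‖c ρ w‖ ^ 2 : ℝ) : ℂ) := by
      intro ρ w
      have hsq : ∀ z : ℂ, (starRingEnd ℂ) z * z = ((‖z‖ ^ 2 : ℝ) : ℂ) := by
        intro z
        rw [mul_comm, Complex.mul_conj, Complex.normSq_eq_norm_sq]
      by_cases hρ : ρ ⊆ Y w ∧ G.IsClique (ρ : Set V) ∧ ρ.card = i + 1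
      · have : c ρ w = ∑ v ∈ ρ, (-1 : ℂ) ^ ((ρ.erase v).filter fun u => ν u < ν v).card *
            (h (ρ.erase v) w - h (ρ.erase v) (s v w)) := by
          simp only [hc, kzC]
          rw [if_pos hρ]
        rw [← this]
        exact hsq _
      · have : c ρ w = 0 := by
          simp only [hc, kzC]
          rw [if_neg hρ]
        rw [this]
        simp
    simp only [e2, tsum_fintype, ← Complex.ofReal_sum] at key
    have key2 : ∑ ρ : Finset V, ∑ w : X, ‖c ρ w‖ ^ 2 = 0 := by
      have h2 : (1 / 2 : ℂ) ≠ 0 := by norm_num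
      have h3 := (mul_eq_zero.1 key.symm).resolve_left h2
      exact_mod_cast h3
    have hc0 : ∀ ρ w, c ρ w = 0 := by
      intro ρ w
      have h1 := (Finset.sum_eq_zero_iff_of_nonneg
        (fun ρ _ => Finset.sum_nonneg fun w _ => sq_nonneg ‖c ρ w‖)).1 key2 ρ (mem_univ ρ)
      have h2 := (Finset.sum_eq_zero_iff_of_nonneg
        (fun w _ => sq_nonneg ‖c ρ w‖)).1 h1 w (mem_univ w)
      simpa using h2
    refine ⟨⟨fun σ x hne => ?_, hanti, fun σ => (hasSum_fintype _).summable⟩, ?_, ?_⟩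
    · obtain ⟨h3, h4, h5⟩ := hf1 σ x (fun h0 => hne (by rw [h0]; rfl))
      exact ⟨h3, fun a ha b hb hab => h4 a ha b hb hab, h5⟩
    · funext τ x
      have h3 : tdl ℂ ν f = 0 := hf3
      have h4 := congrFun (congrFun (congrFun h3 τ) x) ()
      rw [kz_tdl_app] at h4
      rw [Pi.zero_apply, Pi.zero_apply]
      rw [Pi.zero_apply, Pi.zero_apply, Pi.zero_apply] at h4
      rw [← h4]
      unfold bdry
      refine sum_congr rfl fun v _ => ?_
      unfold sg
      push_cast
      rfl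
    · intro ρ x h3 h4 h5
      have h6 := hc0 ρ x
      rw [hc] at h6
      unfold kzC at h6
      rw [if_pos ⟨h3, h4, h5⟩] at h6
      have h7 := congrArg (starRingEnd ℂ) h6
      rw [map_zero, map_sum] at h7
      rw [← h7]
      refine sum_congr rfl fun v _ => ?_
      rw [hha, hha, map_mul, map_sub, Complex.conj_conj, Complex.conj_conj, map_pow, map_neg,
        map_one]
  · rw [Submodule.finrank_map_subtype_eq]
    unfold bT bS
    rw [← hZ]
    omega

end Hodge

private theorem kz_coeff {W P : Type} [Group W] [Group P] [Fintype P] (π : W →* P)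
    (a : MonoidAlgebra ℤ W) (φ : P → ℂ) (h : P) :
    ∑ g, φ g * (MonoidAlgebra.mapDomainRingHom ℂ π
      (MonoidAlgebra.mapRingHom W (Int.castRingHom ℂ) a)).coeff (g⁻¹ * h) = gact π a φ h := by
  classical
  induction a using MonoidAlgebra.induction_linear with
  | zero => simp [gact_zero]
  | add a b ha hb =>
    rw [gact_add, ← ha, ← hb, ← Finset.sum_add_distrib]
    refine Finset.sum_congr rfl fun g _ => ?_
    rw [map_add, map_add, MonoidAlgebra.coeff_add, Finsupp.add_apply, mul_add]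
  | single g r =>
    rw [gact_single, MonoidAlgebra.mapRingHom_single, MonoidAlgebra.mapDomainRingHom_apply,
      MonoidAlgebra.mapDomain_single, Finset.sum_eq_single (h * (π g)⁻¹)]
    · rw [MonoidAlgebra.coeff_single, mul_inv_rev, inv_inv, inv_mul_cancel_right,
        Finsupp.single_eq_same]
      simp
    · intro g' _ hg'
      rw [MonoidAlgebra.coeff_single, Finsupp.single_eq_of_ne, mul_zero]
      intro he
      apply hg'
      rw [← he]
      group
    · intro hh
      exact absurd (Finset.mem_univ _) hh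

section Rank

variable {Ω : Type} [Fintype Ω]

/-- the vector of the values of a chain at the rows -/
private noncomputable def kzRow (G : SimpleGraph V) (Y : Ω → Finset V) (i : ℕ) (P : Type) :
    (Finset V → Ω × P → Unit → ℂ) →ₗ[ℂ] (Fin (Fintype.card (RS G Y i)) × P → ℂ) where
  toFun f x := f ((Fintype.equivFin (RS G Y i)).symm x.1).1.2
    (((Fintype.equivFin (RS G Y i)).symm x.1).1.1, x.2) ()
  map_add' _ _ := rfl
  map_smul' _ _ := rfl

private theorem kz_key (G : SimpleGraph V) (Y : Ω → Finset V) (s : V → Ω → Ω) (ν : V → ℕ) (i : ℕ)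
    (P : Type) [Group P] [Fintype P] (π : RGrp G →* P)
    (f : Finset V → Ω × P → Unit → ℂ) (c : CS G Y i) (h : P) :
    Matrix.vecMul (kzRow G Y i P f)
      (op ((toC (HSA G Y s ν i)).map (MonoidAlgebra.mapDomainRingHom ℂ π)))
      (Fintype.equivFin (CS G Y i) c, h) =
      ∑ r : RS G Y i, gact π (HS G Y s ν i r c) (fun p => f r.1.2 (r.1.1, p) ()) h := by
  rw [Matrix.vecMul, dotProduct, Fintype.sum_prod_type]
  rw [← Equiv.sum_comp (Fintype.equivFin (RS G Y i))]
  refine Finset.sum_congr rfl fun r _ => ?_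
  rw [← kz_coeff]
  refine Finset.sum_congr rfl fun g _ => ?_
  show f ((Fintype.equivFin (RS G Y i)).symm (Fintype.equivFin (RS G Y i) r)).1.2
    (((Fintype.equivFin (RS G Y i)).symm (Fintype.equivFin (RS G Y i) r)).1.1, g) () * _ = _
  rw [Equiv.symm_apply_apply]
  congr 1
  simp only [op, Matrix.of_apply, Matrix.map_apply, toC, HSA, Matrix.submatrix_apply,
    Equiv.symm_apply_apply]

/-- **The converse of `harm_finS`.** -/
theorem bT_le_rank (G : SimpleGraph V) (Y : Ω → Finset V) (s : V → Ω → Ω) (hs : IsSpec G Y s)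
    (ν : V → ℕ) (i : ℕ) (P : Type) [Group P] [Fintype P] (π : RGrp G →* P) :
    (bT ℂ G (prY Y P) (prS s (fun v => π (gen G v))) ν i : ℝ) ≤
      ((Fintype.card (RS G Y i) : ℕ) * Fintype.card P : ℝ) -
      (op ((toC (HSA G Y s ν i)).map (MonoidAlgebra.mapDomainRingHom ℂ π))).rank := by
  classical
  set M := op ((toC (HSA G Y s ν i)).map (MonoidAlgebra.mapDomainRingHom ℂ π)) with hM
  have hgg : ∀ v, π (gen G v) * π (gen G v) = 1 := by
    intro v
    rw [← map_mul, gen_mul_gen, map_one]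
  have hgc : ∀ u v, G.Adj u v → π (gen G u) * π (gen G v) = π (gen G v) * π (gen G u) := by
    intro u v huv
    rw [← map_mul, ← map_mul, gen_comm G u v huv]
  have hinv : ∀ v, (π (gen G v))⁻¹ = π (gen G v) := by
    intro v
    exact inv_eq_of_mul_eq_one_left (hgg v)
  have hspec : IsSpec G (prY Y P) (prS s (fun v => π (gen G v))) := isSpec_pr hs _ hgg hgc
  obtain ⟨H, hH, hbT⟩ := exists_harm G (prY Y P) (prS s (fun v => π (gen G v))) hspec ν i
  have hker : ∀ f ∈ H, kzRow G Y i P f ∈ LinearMap.ker (Matrix.vecMulLinear M) := by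
    intro f hf
    have hh := hH f hf
    have h0 : ∀ a σ, ¬ (σ ⊆ Y a ∧ G.IsClique (σ : Set V) ∧ σ.card = i) →
        (fun (a : Ω) (σ : Finset V) (p : P) => f σ (a, p) ()) a σ = 0 := by
      intro a σ hσ
      funext p
      by_contra hne
      exact hσ (hh.chain.supp σ (a, p) hne)
    show Matrix.vecMul (kzRow G Y i P f) M = 0
    funext ⟨j, h⟩
    rw [Pi.zero_apply, ← Equiv.apply_symm_apply (Fintype.equivFin (CS G Y i)) j, hM, kz_key]
    generalize (Fintype.equivFin (CS G Y i)).symm j = cc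
    show ∑ r : RS G Y i, gact π (HS G Y s ν i r cc)
      ((fun (a : Ω) (σ : Finset V) (p : P) => f σ (a, p) ()) r.1.1 r.1.2) h = 0
    rcases cc with ⟨q, v⟩ | ⟨a, τ⟩ | ⟨a, ρ⟩
    · by_cases hv : v ∈ q.1.2
      · rw [HS_anti G Y s hs ν i π _ h0 q v hv h, hinv]
        have h3 := hh.chain.anti q.1.2 v hv (q.1.1, h)
        show f q.1.2 (q.1.1, h) () + f q.1.2 (s v q.1.1, h * π (gen G v)) () = 0
        have h4 : f q.1.2 (s v q.1.1, h * π (gen G v)) () = - f q.1.2 (q.1.1, h) () := h3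
        rw [h4]
        ring
      · refine HS_zero G Y s hs ν i π _ h0 _ ⟨?_, ?_, ?_⟩ h
        · intro q' v' h'
          obtain ⟨h4, h5⟩ := Prod.mk.inj (Sum.inl.inj h')
          rw [← h4, ← h5]
          exact hv
        · intro p h'
          exact absurd h' (by simp)
        · intro y ρ h'
          exact absurd h' (by simp)
    · rw [HS_bd G Y s hs ν i π _ h0 a τ h]
      have h3 := congrFun (congrFun hh.cyc τ) (a, h)
      rw [Pi.zero_apply, Pi.zero_apply] at h3
      rw [← h3]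
      rfl
    · by_cases hρ : ρ ⊆ Y a ∧ G.IsClique (ρ : Set V) ∧ ρ.card = i + 1
      · rw [HS_cobd G Y s hs ν i π _ h0 a ρ hρ.1 hρ.2.1 hρ.2.2 h]
        have h3 := hh.cocyc ρ (a, h) hρ.1 hρ.2.1 hρ.2.2
        rw [← h3]
        refine Finset.sum_congr rfl fun v _ => ?_
        rw [hinv]
        rfl
      · refine HS_zero G Y s hs ν i π _ h0 _ ⟨?_, ?_, ?_⟩ h
        · intro q' v' h'
          exact absurd h' (by simp)
        · intro p h'
          exact absurd h' (by simp)
        · intro y ρ' h'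
          obtain ⟨h4, h5⟩ := Prod.mk.inj (Sum.inr.inj (Sum.inr.inj h'))
          rw [← h4, ← h5]
          exact hρ
  -- the map is injective on `H`
  have hinj : Function.Injective (((kzRow G Y i P).comp H.subtype).codRestrict
      (LinearMap.ker (Matrix.vecMulLinear M)) fun f => hker f.1 f.2) := by
    intro f f' hff
    have h1 : kzRow G Y i P f.1 = kzRow G Y i P f'.1 := congrArg Subtype.val hff
    have h2 : ∀ g : H, ∀ σ ω, ¬ (σ ⊆ Y ω.1 ∧ G.IsClique (σ : Set V) ∧ σ.card = i) →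
        (g : Finset V → Ω × P → Unit → ℂ) σ ω () = 0 := by
      intro g σ ω hσ
      by_contra hne
      exact hσ ((hH g.1 g.2).chain.supp σ ω hne)
    apply Subtype.ext
    funext σ ω u
    obtain ⟨a, p⟩ := ω
    show f.1 σ (a, p) () = f'.1 σ (a, p) ()
    by_cases hσ : σ ⊆ Y a ∧ G.IsClique (σ : Set V) ∧ σ.card = i
    · have h3 := congrFun h1 (Fintype.equivFin (RS G Y i) ⟨(a, σ), hσ⟩, p)
      have h4 : ∀ g : Finset V → Ω × P → Unit → ℂ,
          kzRow G Y i P g (Fintype.equivFin (RS G Y i) ⟨(a, σ), hσ⟩, p) = g σ (a, p) () := by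
        intro g
        show g ((Fintype.equivFin (RS G Y i)).symm
          (Fintype.equivFin (RS G Y i) ⟨(a, σ), hσ⟩)).1.2
          (((Fintype.equivFin (RS G Y i)).symm
            (Fintype.equivFin (RS G Y i) ⟨(a, σ), hσ⟩)).1.1, p) () = _
        rw [Equiv.symm_apply_apply]
      rwa [h4, h4] at h3
    · rw [h2 f σ (a, p) hσ, h2 f' σ (a, p) hσ]
  have h1 := LinearMap.finrank_le_finrank_of_injective hinj
  have h2 : Module.finrank ℂ (LinearMap.range (Matrix.vecMulLinear M)) +
      Module.finrank ℂ (LinearMap.ker (Matrix.vecMulLinear M)) = _ :=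
    LinearMap.finrank_range_add_finrank_ker (Matrix.vecMulLinear M)
  rw [Module.finrank_fintype_fun_eq_card, Fintype.card_prod, Fintype.card_fin] at h2
  have h3 : Module.finrank ℂ (LinearMap.range (Matrix.vecMulLinear M)) = M.rank := by
    have h4 : Matrix.vecMulLinear M = (Matrix.transpose M).mulVecLin := by
      apply LinearMap.ext
      intro x
      rw [Matrix.vecMulLinear_apply, Matrix.mulVecLin_apply, Matrix.mulVec_transpose]
    rw [h4, ← Matrix.rank_transpose M, Matrix.rank]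
  rw [h3] at h2
  have h5 : ((Fintype.card (RS G Y i) : ℕ) * Fintype.card P : ℝ) =
      (M.rank : ℝ) + Module.finrank ℂ (LinearMap.ker (Matrix.vecMulLinear M)) := by
    exact_mod_cast h2.symm
  rw [h5]
  have h6 : (bT ℂ G (prY Y P) (prS s (fun v => π (gen G v))) ν i : ℝ) ≤
      Module.finrank ℂ (LinearMap.ker (Matrix.vecMulLinear M)) := by
    exact_mod_cast hbT.trans h1
  linarith

end Rank

end Pool.Agent.H71.KZ
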